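import Pool.Agent.Lib.MP_399f8e_an.Dc.Main
import Pool.Agent.Lib.MP_399f8e_an.Dc.Flow2

open scoped Manifold ContDiff

namespace Pool.Agent.Lib.MP_399f8e_an.Old.DiscreteCentralizer

/-- Euclidean four-space. -/
abbrev R4 : Type := EuclideanSpace ℝ (Fin 4)

/-- The unit sphere of `R4`. -/
abbrev S3 : Type := Metric.sphere (0 : R4) 1

/-- A flow on the three-sphere, jointly of class `C^2`. -/
def IsC2Flow [Fact (Module.finrank ℝ R4 = 3 + 1)] (φ : ℝ → S3 → S3) : Prop :=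
  ContMDiff (𝓘(ℝ, ℝ).prod (𝓡 3)) (𝓡 3) 2 (fun p : ℝ × S3 => φ p.1 p.2) ∧
    (∀ x, φ 0 x = x) ∧ ∀ s t : ℝ, ∀ x, φ (s + t) x = φ s (φ t x)

/-- The displacement of a self-map of the sphere, as a vector of `R4`. -/
def disp (g : S3 → S3) (x : S3) : R4 := (g x : R4) - (x : R4)

/-- The displacement of `g` has size at most `η` and Lipschitz constant at most `η`. -/
def NearId (g : S3 → S3) (η : ℝ) : Prop :=
  (∀ x, ‖disp g x‖ ≤ η) ∧ ∀ x y : S3, ‖disp g x - disp g y‖ ≤ η * ‖(x : R4) - (y : R4)‖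

/-- Let `φ` be a minimal `C^2` flow on the three-sphere. If `h` commutes with `φ` and
`x ↦ φ (τ x) (h x)` is close enough to the identity for some continuous `τ`, then `h` is a
time-`t₀` map of the flow and `τ` is close to `-t₀`. -/
theorem result [Fact (Module.finrank ℝ R4 = 3 + 1)] (φ : ℝ → S3 → S3) (hφ : IsC2Flow φ)
    (hmin : ∀ x, Dense (Set.range fun t : ℝ => φ t x)) (ε : ℝ) (hε : 0 < ε) :
    ∃ η : ℝ, 0 < η ∧ ∀ (h : S3 → S3) (τ : S3 → ℝ), (∀ t x, h (φ t x) = φ t (h x)) →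
      Continuous τ → NearId (fun x => φ (τ x) (h x)) η →
      ∃ t₀ : ℝ, (∀ x, h x = φ t₀ x) ∧ ∀ x, |τ x + t₀| ≤ ε := by
  obtain ⟨hs, h0, hadd⟩ := hφ
  have hfix : ∀ x, ∃ t, φ t x ≠ x := by
    intro x
    by_contra hx
    push Not at hx
    have h1 : ∀ y, y = x := fun y =>
      (isClosed_singleton (x := x)).closure_subset
        (closure_mono (by rintro _ ⟨t, rfl⟩; exact hx t) (hmin x y))
    exact ne_neg_of_mem_unit_sphere ℝ x (h1 (-x)).symm
  obtain ⟨X, m, M, L, hFD⟩ := Pool.Agent.Lib.MP_399f8e_an.Dc.exists_FD2 φ hs h0 hadd hfix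
  obtain ⟨η, hη, H⟩ := Pool.Agent.Lib.MP_399f8e_an.Dc.main hFD ε hε
  exact ⟨η, hη, fun h τ hc hτ hn => (H h τ hτ hc hn.1 hn.2).1 hmin⟩

end Pool.Agent.Lib.MP_399f8e_an.Old.DiscreteCentralizer
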