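import Pool.Agent.Lib.MP_399f8e_an.Gg.Bridge

open scoped Manifold ContDiff

noncomputable section

namespace Pool.Agent.Results.MP_399f8e_an.GrowthGap

/-- Euclidean four-space. -/
abbrev R4 : Type := EuclideanSpace ℝ (Fin 4)

/-- The unit sphere of `R4`. -/
abbrev S3 : Type := Metric.sphere (0 : R4) 1

/-- A flow on the three-sphere, jointly of class `C^2`. -/
def IsC2Flow [Fact (Module.finrank ℝ R4 = 3 + 1)] (φ : ℝ → S3 → S3) : Prop :=
  ContMDiff (𝓘(ℝ, ℝ).prod (𝓡 3)) (𝓡 3) 2 (fun p : ℝ × S3 => φ p.1 p.2) ∧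
    (∀ x, φ 0 x = x) ∧ ∀ s t : ℝ, ∀ x, φ (s + t) x = φ s (φ t x)

/-- The vector field generating the flow, as a vector of `R4` tangent to the sphere. -/
def gen (φ : ℝ → S3 → S3) (x : S3) : R4 := deriv (fun t : ℝ => (φ t x : R4)) 0

/-- The exterior derivative of the one-form `v ↦ ⟪A y, v⟫` at `p`, on the vectors `v`, `w`. -/
def dForm (A : R4 → R4) (p v w : R4) : ℝ :=
  inner ℝ (fderiv ℝ A p v) w - inner ℝ (fderiv ℝ A p w) v

/-- The standard volume form of the sphere at `x`, on the vectors `u`, `v`, `w`. -/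
def vol (x u v w : R4) : ℝ :=
  (Matrix.of ![fun k => x k, fun k => u k, fun k => v k, fun k => w k]).det

/-- `g` is `K`-Lipschitz for the chordal distance. -/
def Lip (g : S3 → S3) (K : ℝ) : Prop :=
  ∀ x y : S3, ‖(g x : R4) - (g y : R4)‖ ≤ K * ‖(x : R4) - (y : R4)‖

/-- Let `φ` be a `C^2` flow on the three-sphere with nowhere vanishing field `X`, and let
`lam = ⟪A, ·⟫` be a `C^1` one-form with `d lam = ρ · vol(X, ·, ·)` on the sphere, `ρ > 0`.
Either `lam + d w` is nowhere zero on `X` for some `C^1` function `w` (contact type), or the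
Lipschitz constants of the time maps satisfy `κ T^2 ≤ Lip(φ_T) ∫_0^T Lip(φ_t) dt` for all `T`. -/
theorem result [Fact (Module.finrank ℝ R4 = 3 + 1)] (φ : ℝ → S3 → S3) (hφ : IsC2Flow φ)
    (hX : ∀ x, gen φ x ≠ 0) (A : R4 → R4) (hA : ContDiff ℝ 1 A) (ρ : S3 → ℝ) (hρ : ∀ x, 0 < ρ x)
    (hv : ∀ (x : S3) (v w : R4), inner ℝ (x : R4) v = 0 → inner ℝ (x : R4) w = 0 →
      dForm A x v w = ρ x * vol x (gen φ x) v w) :
    (∃ w : R4 → ℝ, ContDiff ℝ 1 w ∧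
      ∀ x : S3, inner ℝ (A x) (gen φ x) + fderiv ℝ w x (gen φ x) ≠ 0) ∨
    ∃ κ : ℝ, 0 < κ ∧ ∀ (T K : ℝ) (k : ℝ → ℝ), 0 < T → Lip (φ T) K →
      IntervalIntegrable k MeasureTheory.volume 0 T → (∀ t ∈ Set.Icc 0 T, Lip (φ t) (k t)) →
      κ * T ^ 2 ≤ K * ∫ t in (0 : ℝ)..T, k t := by
  obtain ⟨hs, h0, hadd⟩ := hφ
  refine or_iff_not_imp_left.2 fun hc => ?_
  refine Pool.Agent.Lib.MP_399f8e_an.Gg.main hs ⟨hs.continuous, h0, hadd⟩ hA hX hρ
    (fun x v w h1 h2 => ?_) fun w hw => ?_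
  · rw [← Pool.Agent.Lib.MP_399f8e_an.Gg.det_eq]
    exact hv x v w h1 h2
  · by_contra h
    exact hc ⟨w, hw, fun x hx => h ⟨x, hx⟩⟩

end Pool.Agent.Results.MP_399f8e_an.GrowthGap
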