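import Pool.Agent.Lib.MP_399f8e_an.Ur.Main
import Pool.Agent.Lib.MP_399f8e_an.Dc.Flow2
import Pool.Agent.Lib.MP_399f8e_an.Rg.Aper

open scoped Manifold ContDiff

namespace Pool.Agent.Lib.MP_399f8e_an.Old.NotUniformlyRigid

/-- Euclidean four-space. -/
abbrev R4 : Type := EuclideanSpace ℝ (Fin 4)

/-- The unit sphere of `R4`. -/
abbrev S3 : Type := Metric.sphere (0 : R4) 1

/-- A flow on the three-sphere, jointly of class `C^2`. -/
def IsC2Flow [Fact (Module.finrank ℝ R4 = 3 + 1)] (φ : ℝ → S3 → S3) : Prop :=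
  ContMDiff (𝓘(ℝ, ℝ).prod (𝓡 3)) (𝓡 3) 2 (fun p : ℝ × S3 => φ p.1 p.2) ∧
    (∀ x, φ 0 x = x) ∧ ∀ s t : ℝ, ∀ x, φ (s + t) x = φ s (φ t x)

/-- Let `φ` be a minimal `C^2` flow on the three-sphere. If `τ` is continuous and
`x ↦ φ (τ x) x` is uniformly close enough to the identity, then `τ` is uniformly small. -/
theorem result [Fact (Module.finrank ℝ R4 = 3 + 1)] (φ : ℝ → S3 → S3) (hφ : IsC2Flow φ)
    (hmin : ∀ x, Dense (Set.range fun t : ℝ => φ t x)) (ε : ℝ) (hε : 0 < ε) :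
    ∃ η : ℝ, 0 < η ∧ ∀ τ : S3 → ℝ, Continuous τ →
      (∀ x, ‖(φ (τ x) x : R4) - (x : R4)‖ ≤ η) → ∀ x, |τ x| ≤ ε := by
  obtain ⟨hs, h0, hadd⟩ := hφ
  have hfix : ∀ x, ∃ t, φ t x ≠ x := by
    intro x
    by_contra hx
    push Not at hx
    have h1 : ∀ y, y = x := fun y =>
      (isClosed_singleton (x := x)).closure_subset
        (closure_mono (by rintro _ ⟨t, rfl⟩; exact hx t) (hmin x y))
    exact ne_neg_of_mem_unit_sphere ℝ x (h1 (-x)).symm
  obtain ⟨X, m, M, L, hFD⟩ := Pool.Agent.Lib.MP_399f8e_an.Dc.exists_FD2 φ hs h0 hadd hfix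
  have aper : ∀ x t, φ t x = x → t = 0 := by
    intro x t ht
    by_contra hne
    rcases lt_or_gt_of_ne hne with h | h
    · have h2 : φ (-t) x = x := by
        have h3 := hadd (-t) t x
        rw [neg_add_cancel, h0, ht] at h3
        exact h3.symm
      exact Pool.Agent.Lib.MP_399f8e_an.Rg.not_dense_of_per φ hs hadd x (-t) (neg_pos.2 h) h2
        (hmin x)
    · exact Pool.Agent.Lib.MP_399f8e_an.Rg.not_dense_of_per φ hs hadd x t h ht (hmin x)
  exact Pool.Agent.Lib.MP_399f8e_an.Ur.main hFD aper hmin ε hε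

end Pool.Agent.Lib.MP_399f8e_an.Old.NotUniformlyRigid
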