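import Pool.Agent.Lib.MP_399f8e_an.Rg.Main

open scoped Manifold ContDiff

namespace Pool.Agent.Lib.MP_399f8e_an.Old.RigidClosedOrbit

/-- Euclidean four-space. -/
abbrev R4 : Type := EuclideanSpace ℝ (Fin 4)

/-- The unit sphere of `R4`. -/
abbrev S3 : Type := Metric.sphere (0 : R4) 1

/-- A flow on the three-sphere, jointly of class `C^2`. -/
def IsC2Flow [Fact (Module.finrank ℝ R4 = 3 + 1)] (φ : ℝ → S3 → S3) : Prop :=
  ContMDiff (𝓘(ℝ, ℝ).prod (𝓡 3)) (𝓡 3) 2 (fun p : ℝ × S3 => φ p.1 p.2) ∧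
    (∀ x, φ 0 x = x) ∧ ∀ s t : ℝ, ∀ x, φ (s + t) x = φ s (φ t x)

/-- The displacement of a self-map of the sphere, as a vector of `R4`. -/
def disp (g : S3 → S3) (x : S3) : R4 := (g x : R4) - (x : R4)

/-- The displacement of `g` has size at most `η` and Lipschitz constant at most `η`. -/
def NearId (g : S3 → S3) (η : ℝ) : Prop :=
  (∀ x, ‖disp g x‖ ≤ η) ∧ ∀ x y : S3, ‖disp g x - disp g y‖ ≤ η * ‖(x : R4) - (y : R4)‖

/-- A `C^2` flow on the three-sphere whose return maps `x ↦ φ (τ x) x` (`τ ≥ 1` continuous) come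
arbitrarily close to the identity, uniformly and in the Lipschitz seminorm, has a closed orbit,
which is not dense. -/
theorem result [Fact (Module.finrank ℝ R4 = 3 + 1)] (φ : ℝ → S3 → S3) (hφ : IsC2Flow φ)
    (hr : ∀ η : ℝ, 0 < η → ∃ τ : S3 → ℝ, Continuous τ ∧ (∀ x, 1 ≤ τ x) ∧
      NearId (fun x => φ (τ x) x) η) :
    ∃ (x : S3) (T : ℝ), 0 < T ∧ φ T x = x ∧ ¬ Dense (Set.range fun t : ℝ => φ t x) := by
  obtain ⟨hs, h0, hadd⟩ := hφ
  obtain ⟨x, T, hT, hx⟩ := Pool.Agent.Lib.MP_399f8e_an.Rg.per_of_rigid φ hs h0 hadd fun η hη => by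
    obtain ⟨τ, h1, h2, h3, h4⟩ := hr η hη
    exact ⟨τ, h1, h2, h3, h4⟩
  exact ⟨x, T, hT, hx, Pool.Agent.Lib.MP_399f8e_an.Rg.not_dense_of_per φ hs hadd x T hT hx⟩

end Pool.Agent.Lib.MP_399f8e_an.Old.RigidClosedOrbit
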